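import Pool.Agent.V11244.Translates

/-! A Borel subset of the Cantor group with an uncountable family of translates with
uncountable pairwise intersections, but with no perfect such family (in ZFC). -/

namespace Pool.Agent.Results.MP_11d5c7_lc.OverlapNotPerfect

open Set Topology Classical
open Pool.Agent.V11244.Translates

/-- The Cantor group `2^ω` (coordinatewise addition modulo 2, product topology). -/
abbrev Cantor := ℕ → ZMod 2

/-- The translate `B + x`. -/
def translate (B : Set Cantor) (x : Cantor) : Set Cantor := {z | ∃ b ∈ B, z = b + x}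

/-- Index set. -/
abbrev Ix := Str ⊕ Str

lemma exists_index : Nonempty (Ix ≃ ℕ) := by
  have : Infinite Ix := by
    have : Function.Injective (fun n : ℕ => (Sum.inl ⟨n, fun _ => true⟩ : Ix)) := by
      intro a b h
      simp only [Sum.inl.injEq, Sigma.mk.injEq] at h
      exact h.1
    exact Infinite.of_injective _ this
  exact nonempty_equiv_of_countable (α := Ix) (β := ℕ)

/-- A fixed bijection of the index set with `ℕ`. -/
noncomputable def j : Ix ≃ ℕ := exists_index.some

/-- Merging of the coordinates. -/
noncomputable def Psi (p : G × G) : Cantor := fun n => Sum.elim p.1 p.2 (j.symm n)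

/-- Splitting of the coordinates. -/
noncomputable def Phi (x : Cantor) : G × G := (fun s => x (j (Sum.inl s)), fun s => x (j (Sum.inr s)))

lemma continuous_Phi : Continuous Phi := by
  unfold Phi
  refine Continuous.prodMk ?_ ?_ <;>
  exact continuous_pi fun s => continuous_apply _

lemma continuous_Psi : Continuous Psi := by
  refine continuous_pi fun n => ?_
  unfold Psi
  rcases h : j.symm n with s | s
  · exact (continuous_apply s).comp continuous_fst
  · exact (continuous_apply s).comp continuous_snd

lemma Phi_add (x y : Cantor) : Phi (x + y) = Phi x + Phi y := rfl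

lemma Phi_Psi (p : G × G) : Phi (Psi p) = p := by
  obtain ⟨a, b⟩ := p
  simp [Phi, Psi]

lemma Psi_Phi (x : Cantor) : Psi (Phi x) = x := by
  funext n
  obtain ⟨i, rfl⟩ := j.surjective n
  rcases i with s | s <;> simp [Phi, Psi]

lemma Phi_injective : Function.Injective Phi := fun x y h => by
  rw [← Psi_Phi x, h, Psi_Phi]

lemma cantor_add_self (x : Cantor) : x + x = 0 := by
  funext k; exact zmod_add_self _

/-- Coding of a triple `(n, y, t)` by one point. -/
def code (n : ℕ) (p : C × C) : C := fun k =>
  if (Nat.unpair k).1 = 0 then decide ((Nat.unpair k).2 = n)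
  else if (Nat.unpair k).1 = 1 then p.1 (Nat.unpair k).2 else p.2 (Nat.unpair k).2

lemma continuous_code (n : ℕ) : Continuous (code n) := by
  refine continuous_pi fun k => ?_
  unfold code
  split_ifs
  · exact continuous_const
  · exact (continuous_apply _).comp continuous_fst
  · exact (continuous_apply _).comp continuous_snd

lemma code_inj {n m : ℕ} {p q : C × C} (h : code n p = code m q) : n = m ∧ p = q := by
  refine ⟨?_, Prod.ext ?_ ?_⟩
  · have := congrFun h (Nat.pair 0 n)
    simpa [code] using this
  · funext k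
    have := congrFun h (Nat.pair 1 k)
    simpa [code] using this
  · funext k
    have := congrFun h (Nat.pair 2 k)
    simpa [code] using this

/-- The set in the product group. -/
def B' : Set (G × G) := {p | ∃ (n : ℕ) (y t : C), col n y ≠ y ∧ p.2 = ev (code n (y, t)) ∧
  (p.1 = ev y ∨ p.1 = ev (col n y))}

/-- The Borel set. -/
def B : Set Cantor := Phi ⁻¹' B'

/-- The compact pieces. -/
def piece (n m : ℕ) (b : Bool) : Set (G × G) :=
  (fun p : C × C => (if b then ev p.1 else ev (col n p.1), ev (code n p))) ''
    {p : C × C | p.1 (Nat.pair n m) ≠ p.1 m}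

lemma isCompact_piece (n m : ℕ) (b : Bool) : IsCompact (piece n m b) := by
  refine IsCompact.image ?_ ?_
  · have h1 : Continuous (fun p : C × C => (p.1 (Nat.pair n m), p.1 m)) :=
      ((continuous_apply _).comp continuous_fst).prodMk ((continuous_apply _).comp continuous_fst)
    have h2 : IsClosed {q : Bool × Bool | q.1 ≠ q.2} := isClosed_discrete _
    exact (h2.preimage h1).isCompact
  · refine Continuous.prodMk ?_ (continuous_ev.comp (continuous_code n))
    cases b
    · exact continuous_ev.comp ((continuous_col n).comp continuous_fst)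
    · exact continuous_ev.comp continuous_fst

lemma B'_eq : B' = ⋃ (n : ℕ) (m : ℕ) (b : Bool), piece n m b := by
  ext p
  simp only [mem_iUnion]
  constructor
  · rintro ⟨n, y, t, hy, h2, h1⟩
    obtain ⟨m, hm⟩ := Function.ne_iff.1 hy
    rcases h1 with h1 | h1
    · exact ⟨n, m, true, (y, t), hm, by ext1 <;> simp [h1, h2]⟩
    · exact ⟨n, m, false, (y, t), hm, by ext1 <;> simp [h1, h2]⟩
  · rintro ⟨n, m, b, ⟨y, t⟩, hp, rfl⟩
    refine ⟨n, y, t, fun h => hp ?_, rfl, ?_⟩
    · exact congrFun h m
    · cases b
      · right; simp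
      · left; simp

lemma measurable_B : @MeasurableSet Cantor (borel Cantor) B := by
  borelize Cantor
  unfold B
  rw [B'_eq, preimage_iUnion]
  refine MeasurableSet.iUnion fun n => ?_
  rw [preimage_iUnion]
  refine MeasurableSet.iUnion fun m => ?_
  rw [preimage_iUnion]
  refine MeasurableSet.iUnion fun b => ?_
  exact ((isCompact_piece n m b).isClosed.preimage continuous_Phi).measurableSet

/-- Sums of two `ev`'s determine the unordered pair. -/
lemma pair_det {a b c d : C} (hab : a ≠ b) (h : ev a + ev b = ev c + ev d) : c = a ∨ c = b := by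
  by_contra hcon
  push Not at hcon
  obtain ⟨n, hn⟩ := exists_level [a, b, c, d]
  have h1 := congrFun h ⟨n, fun i => a i⟩
  have h2 := congrFun h ⟨n, fun i => b i⟩
  have h3 := congrFun h ⟨n, fun i => c i⟩
  simp only [Pi.add_apply] at h1 h2 h3
  rw [hn a (by simp) a (by simp), hn b (by simp) a (by simp), hn c (by simp) a (by simp),
    hn d (by simp) a (by simp)] at h1
  rw [hn a (by simp) b (by simp), hn b (by simp) b (by simp), hn c (by simp) b (by simp),
    hn d (by simp) b (by simp)] at h2
  simp only [hcon.1, hcon.2, hab, hab.symm, if_true, if_false] at h1 h2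
  by_cases e1 : d = a
  · have e2 : d ≠ b := by rw [e1]; exact hab
    simp [e2] at h2
  · simp [e1] at h1

/-- The intersection with a translate in the second direction is finite. -/
lemma finite_inter {w : G × G} (hw : w.2 ≠ 0) : {b : G × G | b ∈ B' ∧ w + b ∈ B'}.Finite := by
  by_cases hex : ∃ b, b ∈ B' ∧ w + b ∈ B'
  · obtain ⟨b0, ⟨n, y, t, hy, h2, h1⟩, ⟨n', y', t', hy', h2', h1'⟩⟩ := hex
    set c := code n (y, t) with hc
    set c' := code n' (y', t') with hc'
    have hw2 : w.2 = ev c + ev c' := by
      have : w.2 + b0.2 = ev c' := h2'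
      rw [h2] at this
      rw [← this]
      have : ev c + (w.2 + ev c) = w.2 + (ev c + ev c) := by abel
      rw [this, G_add_self, add_zero]
    have hcc' : c ≠ c' := by
      intro h
      rw [h, G_add_self] at hw2
      exact hw hw2
    refine (Set.toFinite ({(ev y, ev c), (ev (col n y), ev c), (ev y', ev c'),
      (ev (col n' y'), ev c')} : Set (G × G))).subset ?_
    rintro b ⟨⟨m, z, s, hz, g2, g1⟩, ⟨m', z', s', hz', g2', g1'⟩⟩
    have hw2' : w.2 = ev (code m (z, s)) + ev (code m' (z', s')) := by
      have : w.2 + b.2 = ev (code m' (z', s')) := g2'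
      rw [g2] at this
      rw [← this]
      have : ev (code m (z, s)) + (w.2 + ev (code m (z, s))) =
        w.2 + (ev (code m (z, s)) + ev (code m (z, s))) := by abel
      rw [this, G_add_self, add_zero]
    have := pair_det hcc' (hw2.symm.trans hw2')
    rcases this with h | h
    · rw [hc] at h
      obtain ⟨rfl, h'⟩ := code_inj h
      simp only [Prod.mk.injEq] at h'
      obtain ⟨rfl, rfl⟩ := h'
      rcases g1 with g1 | g1
      · left; exact Prod.ext g1 g2
      · right; left; exact Prod.ext g1 g2
    · rw [hc'] at h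
      obtain ⟨rfl, h'⟩ := code_inj h
      simp only [Prod.mk.injEq] at h'
      obtain ⟨rfl, rfl⟩ := h'
      rcases g1 with g1 | g1
      · right; right; left; exact Prod.ext g1 g2
      · right; right; right; exact Prod.ext g1 g2
  · have : {b : G × G | b ∈ B' ∧ w + b ∈ B'} = ∅ := by
      ext b
      simp only [mem_ofPred_eq, mem_empty_iff_false, iff_false]
      exact fun h => hex ⟨b, h⟩
    rw [this]
    exact finite_empty

/-- If the overlap is uncountable, then the difference is zero or in `E × 0`. -/
lemma overlap_imp {w : G × G} (h : ¬ {b : G × G | b ∈ B' ∧ w + b ∈ B'}.Countable) (h0 : w ≠ 0) :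
    w.1 ∈ E ∧ w.2 = 0 := by
  have hw2 : w.2 = 0 := by
    by_contra hw
    exact h (finite_inter hw).countable
  refine ⟨?_, hw2⟩
  have hne : {b : G × G | b ∈ B' ∧ w + b ∈ B'}.Nonempty := by
    rw [nonempty_iff_ne_empty]
    intro he
    rw [he] at h
    exact h countable_empty
  obtain ⟨b, ⟨n, y, t, hy, h2, h1⟩, ⟨n', y', t', hy', h2', h1'⟩⟩ := hne
  have e2 : ev (code n (y, t)) = ev (code n' (y', t')) := by
    rw [← h2, ← h2']
    show b.2 = w.2 + b.2
    rw [hw2, zero_add]
  obtain ⟨rfl, h'⟩ := code_inj (ev_injective e2)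
  simp only [Prod.mk.injEq] at h'
  obtain ⟨rfl, rfl⟩ := h'
  have hw1 : w.1 ≠ 0 := fun h1 => h0 (Prod.ext h1 hw2)
  have hsum : w.1 = (w + b).1 + b.1 := by
    show w.1 = w.1 + b.1 + b.1
    rw [add_assoc, G_add_self, add_zero]
  refine ⟨n, y, hy, ?_⟩
  rcases h1 with h1 | h1 <;> rcases h1' with h1' | h1'
  · exfalso; apply hw1; rw [hsum, h1, h1', G_add_self]
  · rw [hsum, h1, h1', add_comm]
  · rw [hsum, h1, h1']
  · exfalso; apply hw1; rw [hsum, h1, h1', G_add_self]

lemma C_not_countable : ¬ (univ : Set C).Countable := by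
  intro h1
  obtain ⟨f, hf⟩ := (countable_iff_exists_subset_range).1 h1
  obtain ⟨n, hn⟩ := hf (mem_univ (fun n => !(f n n)))
  have := congrFun hn n
  simp at this

/-- Uncountable overlap. -/
lemma overlap_of {n : ℕ} {y : C} (hy : col n y ≠ y) {w : G × G}
    (hw1 : w.1 = ev y + ev (col n y)) (hw2 : w.2 = 0) :
    ¬ {b : G × G | b ∈ B' ∧ w + b ∈ B'}.Countable := by
  intro hc
  have hinj : Function.Injective (fun t : C => ((ev y, ev (code n (y, t))) : G × G)) := by
    intro t s h
    simp only [Prod.mk.injEq, true_and] at h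
    have := (code_inj (ev_injective h)).2
    simpa using this
  have hsub : range (fun t : C => ((ev y, ev (code n (y, t))) : G × G)) ⊆
      {b : G × G | b ∈ B' ∧ w + b ∈ B'} := by
    rintro _ ⟨t, rfl⟩
    refine ⟨⟨n, y, t, hy, rfl, Or.inl rfl⟩, ⟨n, y, t, hy, ?_, Or.inr ?_⟩⟩
    · show w.2 + _ = _
      rw [hw2, zero_add]
    · show w.1 + ev y = _
      rw [hw1]
      have : ev y + ev (col n y) + ev y = ev (col n y) + (ev y + ev y) := by abel
      rw [this, G_add_self, add_zero]
  have h1 := hc.mono hsub
  apply C_not_countable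
  have := h1.preimage_of_injOn (f := fun t : C => ((ev y, ev (code n (y, t))) : G × G))
    (hinj.injOn)
  simpa using this

lemma overlap_zero : ¬ {b : G × G | b ∈ B' ∧ (0 : G × G) + b ∈ B'}.Countable := by
  have hy : col 0 (fun k => decide (k = 2)) ≠ (fun k => decide (k = 2)) := by
    intro h
    have h1 := congrFun h 2
    have h2 : Nat.pair 0 2 = 4 := by decide
    simp [col, h2] at h1
  set y : C := fun k => decide (k = 2) with hydef
  intro hc
  have hinj : Function.Injective (fun t : C => ((ev y, ev (code 0 (y, t))) : G × G)) := by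
    intro t s h
    simp only [Prod.mk.injEq, true_and] at h
    have := (code_inj (ev_injective h)).2
    simpa using this
  have hsub : range (fun t : C => ((ev y, ev (code 0 (y, t))) : G × G)) ⊆
      {b : G × G | b ∈ B' ∧ (0 : G × G) + b ∈ B'} := by
    rintro _ ⟨t, rfl⟩
    refine ⟨⟨0, y, t, hy, rfl, Or.inl rfl⟩, ?_⟩
    rw [zero_add]
    exact ⟨0, y, t, hy, rfl, Or.inl rfl⟩
  have h1 := hc.mono hsub
  apply C_not_countable
  have := h1.preimage_of_injOn (f := fun t : C => ((ev y, ev (code 0 (y, t))) : G × G))
    (hinj.injOn)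
  simpa using this

lemma overlap_iff (x y : Cantor) : (translate B x ∩ translate B y).Countable ↔
    {b : G × G | b ∈ B' ∧ Phi (x + y) + b ∈ B'}.Countable := by
  have himg : {b : G × G | b ∈ B' ∧ Phi (x + y) + b ∈ B'} =
      (fun z => Phi (z + x)) '' (translate B x ∩ translate B y) := by
    ext b
    constructor
    · rintro ⟨h1, h2⟩
      refine ⟨Psi b + x, ⟨⟨Psi b, ?_, rfl⟩, ⟨x + y + Psi b, ?_, ?_⟩⟩, ?_⟩
      · show Phi (Psi b) ∈ B'
        rw [Phi_Psi]; exact h1
      · show Phi (x + y + Psi b) ∈ B'
        rw [Phi_add, Phi_Psi]; exact h2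
      · have : x + y + Psi b + y = Psi b + x + (y + y) := by abel
        rw [this, cantor_add_self, add_zero]
      · show Phi (Psi b + x + x) = b
        rw [add_assoc, cantor_add_self, add_zero, Phi_Psi]
    · rintro ⟨_, ⟨⟨c, hc, rfl⟩, ⟨c', hc', h⟩⟩, rfl⟩
      show Phi (c + x + x) ∈ B' ∧ Phi (x + y) + Phi (c + x + x) ∈ B'
      rw [add_assoc, cantor_add_self, add_zero]
      refine ⟨hc, ?_⟩
      rw [← Phi_add]
      have : x + y + c = c' := by
        have : x + y + c = (c + x) + y := by abel
        rw [this, h, add_assoc, cantor_add_self, add_zero]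
      rw [this]; exact hc'
  have hinj : Function.Injective (fun z => Phi (z + x)) := fun a b h =>
    add_right_cancel (Phi_injective h)
  rw [himg]
  constructor
  · intro h; exact h.image _
  · intro h; exact Set.countable_of_injective_of_countable_image hinj.injOn h

/-- **Theorem (ZFC).** There are a Borel set `B ⊆ 2^ω` and an uncountable `H ⊆ 2^ω` such that
`(B+x) ∩ (B+y)` is uncountable for all `x, y ∈ H`, while every perfect set `P` contains
(distinct) `x, y` with `(B+x) ∩ (B+y)` countable. -/
theorem result : ∃ B : Set Cantor, @MeasurableSet Cantor (borel Cantor) B ∧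
    (∃ H : Set Cantor, ¬ H.Countable ∧
      ∀ x ∈ H, ∀ y ∈ H, ¬ (translate B x ∩ translate B y).Countable) ∧
    ∀ P : Set Cantor, P.Nonempty → Perfect P →
      ∃ x ∈ P, ∃ y ∈ P, x ≠ y ∧ (translate B x ∩ translate B y).Countable := by
  refine ⟨B, measurable_B, ?_, ?_⟩
  · obtain ⟨H, hH, hR⟩ := exists_clique
    let k : C → Cantor := fun h => Psi (ev h, 0)
    have hk : ∀ h, Phi (k h) = (ev h, 0) := fun h => Phi_Psi _
    have hkinj : Function.Injective k := by
      intro a b hab
      have h1 := hk a
      rw [hab, hk b] at h1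
      simp only [Prod.mk.injEq] at h1
      exact ev_injective h1.1.symm
    refine ⟨k '' H, fun h => hH (Set.countable_of_injective_of_countable_image
      (hkinj.injOn) h), ?_⟩
    rintro _ ⟨a, ha, rfl⟩ _ ⟨b, hb, rfl⟩
    rw [overlap_iff]
    by_cases hab : a = b
    · subst hab
      rw [cantor_add_self]
      have : Phi 0 = 0 := rfl
      rw [this]
      exact overlap_zero
    · rw [Phi_add, hk, hk]
      obtain ⟨n, hn | hn⟩ := hR a ha b hb hab
      · refine overlap_of (n := n) (y := a) (by rw [hn]; exact Ne.symm hab) ?_ ?_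
        · rw [hn]; rfl
        · simp
      · refine overlap_of (n := n) (y := b) (by rw [hn]; exact hab) ?_ ?_
        · rw [hn, add_comm]; rfl
        · simp
  · intro P hne hP
    by_contra hcon
    push Not at hcon
    have key : ∀ x ∈ P, ∀ y ∈ P, x ≠ y → (Phi (x + y)).1 ∈ E ∧ (Phi (x + y)).2 = 0 := by
      intro x hx y hy hxy
      have h1 := hcon x hx y hy hxy
      rw [overlap_iff] at h1
      refine overlap_imp h1 ?_
      intro h0
      apply hxy
      have h2 : Phi x = Phi y := by
        rw [Phi_add] at h0
        have e1 : (Phi x).1 = (Phi y).1 := G_add_eq_zero.1 (congrArg Prod.fst h0)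
        have e2 : (Phi x).2 = (Phi y).2 := G_add_eq_zero.1 (congrArg Prod.snd h0)
        exact Prod.ext e1 e2
      exact Phi_injective h2
    refine no_perfect_clique (fun x => (Phi x).1)
      (continuous_fst.comp continuous_Phi) P hP hne ?_ ?_
    · intro x hx y hy hxy
      by_contra hne'
      have := (key x hx y hy hne').1
      rw [Phi_add] at this
      have h0 : (Phi x + Phi y).1 = (Phi x).1 + (Phi y).1 := rfl
      simp only at hxy
      rw [h0, hxy, G_add_self] at this
      exact zero_notMem_E this
    · intro x hx y hy hxy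
      have := (key x hx y hy hxy).1
      rw [Phi_add] at this
      exact this

end Pool.Agent.Results.MP_11d5c7_lc.OverlapNotPerfect
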